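import Pool.Agent.ISB.StmtsC

/-!
# ISB row KOR: the rotating element has order `r`
-/

set_option autoImplicit false

namespace Pool.Agent.ISB.H81

open Pool.Agent.ISB
open scoped Classical commutatorElement

theorem kor (h1 : TrvStmt) : KorStmt := by
  intro G Ω _ _ _ _ r P κ ω hr hodd hP hR m
  have hpow : ∀ j k, κ ^ j • ω k = ω (k + j) := by
    intro j
    induction j with
    | zero => intro k; rw [pow_zero, one_smul, add_zero]
    | succ j ih => intro k; rw [pow_succ', mul_smul, ih, hR.sh, add_assoc]
  have hper : ∀ j k, ω (k + r * j) = ω k := by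
    intro j
    induction j with
    | zero => intro k; rw [mul_zero, add_zero]
    | succ j ih => intro k; rw [Nat.mul_succ, ← add_assoc, hR.per, ih]
  induction m with
  | zero => intro h; rw [pow_zero, pow_one] at h; rw [h, one_pow]
  | succ m ih =>
    intro h
    rcases m with _ | m
    · rwa [zero_add, pow_one] at h
    · apply ih
      have ht : ∀ x : Ω, κ ^ (r ^ (m + 1)) • x = x := by
        refine h1 G Ω r P κ ω hr hodd hP hR (κ ^ (r ^ (m + 1))) ?_ ?_ ?_
        · rw [← pow_mul, ← pow_succ]; exact h
        · exact (Commute.refl κ).pow_left _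
        · intro k; rw [hpow, pow_succ', hper]
      exact FaithfulSMul.eq_of_smul_eq_smul (α := Ω) fun x => by rw [ht, one_smul]

end Pool.Agent.ISB.H81
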